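import Pool.Agent.MP_c69980_ag.H43.Spec3

/-!
The theorem of Ax at a point of a semi-abelian variety.
-/

set_option autoImplicit false

namespace Pool.Agent.MP_c69980_ag.H43

open MvPolynomial H60 Finset

lemma ax_kill_sum {F : Subfield ℂ} {n : ℕ} {d : Fin n → Der} (h : ∀ l, Kill F (d l))
    (c : Fin n → ℂ) : Kill F (∑ l, c l • d l) := fun x hx => by
  rw [der_sum_apply]
  exact sum_eq_zero fun l _ => by rw [Derivation.smul_apply, h l x hx, smul_zero]

lemma ax_zero {n g : ℕ} {v : Fin n → Fin g → ℂ} {J : Fin n → Fin g} {B : Fin n → Fin n → ℂ}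
    (hJ : ∀ j m, ∑ l, B j l * v l (J m) = if j = m then 1 else 0) (c : Fin n → ℂ)
    (h : ∀ m, (∑ l, c l • v l) (J m) = 0) : c = 0 := by
  let V : Matrix (Fin n) (Fin n) ℂ := Matrix.of fun l m => v l (J m)
  have h1 : Matrix.of B * V = 1 := by
    ext j m
    rw [Matrix.mul_apply, Matrix.one_apply]
    exact hJ j m
  have h2 : V * Matrix.of B = 1 := mul_eq_one_comm.1 h1
  have h3 : Matrix.vecMul c V = 0 := by
    funext m
    have := h m
    rw [Finset.sum_apply] at this
    exact this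
  rw [← Matrix.vecMul_one c, ← h2, ← Matrix.vecMul_vecMul, h3, Matrix.zero_vecMul]

theorem sAx (h1 : SExt) (h2 : SStab) (h3 : SInd) (h4 : SLin) (_h5 : SPres) : SAx := by
  intro t a M w Θ PP k F D p₀ g hG hC
  obtain ⟨N, hN⟩ := h3.fin F _ (rat_fin (Θ p₀))
  obtain ⟨n, y, -, hn, hy, hind, halg⟩ := h3.max F N _ hN
  choose d hd hdy using fun l : Fin n => h1.2 F (Fin n) y hind (Pi.single l 1)
  choose v hv using fun l => hG.ex (d l) p₀ ((hd l).mono hC.le)
  obtain ⟨β, hβ⟩ := hG.ch p₀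
  have hdL : ∀ l, ∀ x ∈ rat (Θ p₀), d l x ∈ FL F (Θ p₀) := fun l x hx => by
    refine (h2 (d l)).1 (F ∪ Set.range y) _ (Set.union_subset (le_FL F _) ?_) ?_ x
      (rat_FL F _ hx) (halg x hx)
    · rintro _ ⟨i, rfl⟩
      exact rat_FL F _ (hy i)
    · rintro u (hu | ⟨i, rfl⟩)
      · rw [hd l u hu]; exact zero_mem _
      · rw [hdy, Pi.single_apply]
        split_ifs
        · exact one_mem _
        · exact zero_mem _
  have hvL : ∀ l i, v l i ∈ FL F (Θ p₀) := fun l =>
    (h4 ℂ (FL F (Θ p₀))).1 (Fin (t + a)) (CI M t) (fun x i => eval (co β (Θ p₀)) (PP β i x))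
      (fun x => d l (co β (Θ p₀) x)) (v l)
      (fun x i => (hG.cf β i x).eval_mem_field (hC.le.trans (le_FL F _)) fun x =>
        rat_FL F _ (co_mem β _ x))
      (fun x => hdL l _ (co_mem β _ x)) (fun x => ((hG.tan_iff hβ).1 (hv l) x).symm)
      fun v' h => hG.imm β p₀ v' hβ h
  have hspan : ∀ (E : Der) (u : Pt t a), Kill F E → Tan Θ E p₀ u → u = ∑ l, E (y l) • v l := by
    intro E u hE hu
    have h6 : Tan Θ (E - ∑ l, E (y l) • d l) p₀ (u - ∑ l, E (y l) • v l) :=
      hu.sub (Tan.sum _ fun l _ => (hv l).smul _)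
    have h7 : Tan Θ (E - ∑ l, E (y l) • d l) p₀ 0 := tan_zero_iff.2 fun x hx => by
      refine (h2 _).2.1 (F ∪ Set.range y) ?_ x (halg x hx)
      rintro u (hu | ⟨i, rfl⟩)
      · rw [Derivation.sub_apply, hE u hu, ax_kill_sum hd _ u hu, sub_zero]
      · rw [Derivation.sub_apply, der_sum_apply]
        simp [hdy, Pi.single_apply]
    exact sub_eq_zero.1 (hG.tan_inj h6 h7)
  have hli : LinearIndependent ℂ v := Fintype.linearIndependent_iff.2 fun c hc m => by
    have h6 : Tan Θ (∑ l, c l • d l) p₀ (∑ l, c l • v l) := Tan.sum _ fun l _ => (hv l).smul _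
    rw [hc] at h6
    have h7 := tan_zero_iff.1 h6 (y m) (hy m)
    rw [der_sum_apply] at h7
    simpa [hdy, Pi.single_apply] using h7
  obtain ⟨J, B, hB, hJ⟩ := (h4 ℂ (FL F (Θ p₀))).2 n (t + a) v hli hvL
  let μ : Fin n → Pt t a := fun j => ∑ l, B j l • v l
  let e : Fin n → Der := fun j => ∑ l, B j l • d l
  have he : ∀ j, Kill F (e j) ∧ Tan Θ (e j) p₀ (μ j) := fun j =>
    ⟨ax_kill_sum hd _, Tan.sum _ fun l _ => (hv l).smul _⟩
  have hμ : ∀ j i, μ j i = ∑ l, B j l * v l i := fun j i => Finset.sum_apply _ _ _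
  have hμJ : ∀ j m, μ j (J m) = if j = m then 1 else 0 := fun j m => (hμ j _).trans (hJ j m)
  have hμF : ∀ j i, μ j i ∈ F := fun j i => by
    refine hC.const _ (by rw [hμ]; exact sum_mem fun l _ => mul_mem (hB j l) (hvL l i)) ?_
    have h6 := hG.br D (e j) p₀ g (μ j) hC.kill ((he j).1.mono hC.le) hC.tan (he j).2
    have h7 : Kill F ⁅D, e j⁆ := fun c hc => by
      rw [Derivation.commutator_apply, (he j).1 c hc, (he j).1 _ (hC.pres c hc), map_zero, sub_zero]
    have h8 := hspan _ _ h7 h6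
    have h9 : ∀ i, D (μ j i) = (∑ l, ⁅D, e j⁆ (y l) • v l) i := fun i => by
      rw [← congrFun h8 i, (he j).1 _ (hC.mem i), sub_zero]
    have h10 := ax_zero hJ (fun l => ⁅D, e j⁆ (y l)) fun m => by
      rw [← h9, hμJ]
      split_ifs
      · exact D.map_one_eq_zero
      · exact map_zero D
    rw [h9, Finset.sum_apply]
    exact sum_eq_zero fun l _ => by rw [congrFun h10 l]; simp
  have hμi : LinearIndependent ℂ μ := Fintype.linearIndependent_iff.2 fun c hc m => by
    have h6 := congrFun hc (J m)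
    rw [Finset.sum_apply] at h6
    simpa [hμJ] using h6
  obtain ⟨lam, l1, l2, l3⟩ := hG.rig F p₀ n μ e hC.le hμF hμi he hn
  choose c hc using fun l => (Submodule.mem_span_range_iff_exists_fun ℂ).1 (l3 l)
  refine ⟨n, lam, fun l => ∑ j, c l j • e j, l1, l2, fun l => ax_kill_sum (fun j => (he j).1) _,
    fun l => ?_, hn⟩
  rw [← hc l]
  exact Tan.sum _ fun j _ => (he j).2.smul _

end Pool.Agent.MP_c69980_ag.H43
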